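import Pool.Agent.Lib.EcII.MOne2
import Pool.Agent.Lib.EcII.Sentence

/-!
# Existentially closed II_1 factors which are not elementarily equivalent

There are existentially closed II_1 factors `M` and `N` and a sentence whose values in `M` and in
`N` are different.

The sentence `Theta` (see `Funs.lean`) says, roughly: there are parameters coding a discrete group
`Λ` with property (T) such that every coded subset of `Λ` is a section of a fixed definable
relation `Psi` on `Λ`.  It has the value zero in a generic factor built together with the coded
relation (`MTwo.lean`), and a positive value in a factor to which codes of all diagonal sets have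
been added (`MOne2.lean`).
-/

noncomputable section

namespace Pool.Agent.Results.MP_7bfe23_lc.Full

open Pool.Agent.Lib.EcII

/-- There are existentially closed II_1 factors with different theories. -/
theorem result : ∃ M N : TVN, M.IsEC ∧ N.IsEC ∧
    ∃ φ : Formula 0, φ.eval M (fun i => i.elim0) ≠ φ.eval N (fun i => i.elim0) := by
  obtain ⟨M, hM, hMf, hM0⟩ := exists_model_two
  obtain ⟨N, hN, hNf, hN0⟩ := exists_model_one
  obtain ⟨φ, hφ⟩ := exists_sentence
  refine ⟨M, N, hM.isEC hMf, hN.isEC hNf, φ, ?_⟩
  rw [hφ, hφ]
  intro h
  rw [h] at hM0
  have : (0 : ℝ) < 1 / 1000000000000 := by norm_num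
  linarith

end Pool.Agent.Results.MP_7bfe23_lc.Full
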